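import Mathlib

/-!
# The combinatorial part: many nonzero terms from the local lemma
-/

set_option autoImplicit false

open Finset

namespace Pool.Agent.Helper80K9.DC

/-- a large gap of a finite set below one of its points -/
theorem exists_gap (V : Finset ℕ) {a b s : ℕ} (ha : a ∈ V) (hb : b ∈ V) (hab : a < b)
    (hs : V.card * s < b - a) :
    ∃ v ∈ V, (∀ y ∈ V, v < y → v + s < y) ∧ ∃ y ∈ V, v < y ∧ y ≤ v + (b - a) := by
  classical
  by_contra hcon
  push Not at hcon
  have hcov : Ico a b ⊆ (V.filter fun v => a ≤ v ∧ v < b).biUnion fun v => Ico v (v + s) := by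
    intro y hy
    rw [mem_Ico] at hy
    have hne : (V.filter fun v => a ≤ v ∧ v ≤ y).Nonempty :=
      ⟨a, mem_filter.2 ⟨ha, le_rfl, hy.1⟩⟩
    set v := (V.filter fun v => a ≤ v ∧ v ≤ y).max' hne with hv
    have hvm : v ∈ V.filter fun v => a ≤ v ∧ v ≤ y := Finset.max'_mem _ _
    rw [mem_filter] at hvm
    obtain ⟨hvV, hav, hvy⟩ := hvm
    have hmax : ∀ z ∈ V, a ≤ z → z ≤ y → z ≤ v := fun z hz h1 h2 =>
      Finset.le_max' _ z (mem_filter.2 ⟨hz, h1, h2⟩)
    rw [mem_biUnion]
    refine ⟨v, mem_filter.2 ⟨hvV, hav, by omega⟩, ?_⟩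
    rw [mem_Ico]
    refine ⟨hvy, ?_⟩
    by_contra hlt
    have h1 : ∀ z ∈ V, v < z → v + s < z := by
      intro z hz hvz
      by_contra hzs
      have := hmax z hz (by omega) (by omega)
      omega
    have h2 := hcon v hvV h1 b hb (by omega)
    omega
  have h1 := card_le_card hcov
  rw [Nat.card_Ico] at h1
  have h2 : ((V.filter fun v => a ≤ v ∧ v < b).biUnion fun v => Ico v (v + s)).card ≤
      V.card * s := by
    refine (card_biUnion_le_card_mul _ _ s fun v _ => ?_).trans
      (Nat.mul_le_mul_right _ (card_filter_le _ _))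
    rw [Nat.card_Ico]
    omega
  omega

/-- a point with a large gap to its left, at a given scale -/
theorem exists_left_gap {p : ℕ → Prop} [DecidablePred p] {C1 X D Y w : ℕ}
    (hratio : ∀ n, ∃ k, n < k ∧ k ≤ 2 * n + C1 ∧ p k)
    (hD : ((range X).filter p).card < D) (hY : 2 * Y ≤ X) (hw : 0 < w) (hDw : D * w = Y) :
    ∃ x, p x ∧ Y + w ≤ x ∧ x ≤ 4 * Y + C1 ∧ ∀ k, x ≤ k + w → k < x → ¬ p k := by
  have h1 : ∃ i, i < D ∧ ∀ k, Y + i * w ≤ k → k < Y + (i + 1) * w → ¬ p k := by
    by_contra hcon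
    push Not at hcon
    have hcon' : ∀ i : ℕ, ∃ k, i < D → (Y + i * w ≤ k ∧ k < Y + (i + 1) * w ∧ p k) := by
      intro i
      by_cases hi : i < D
      · obtain ⟨k, h1, h2, h3⟩ := hcon i hi
        exact ⟨k, fun _ => ⟨h1, h2, h3⟩⟩
      · exact ⟨0, fun h => absurd h hi⟩
    choose f hf using hcon'
    have h2 : (range D).card ≤ ((range X).filter p).card := by
      refine Finset.card_le_card_of_injOn f ?_ ?_
      · intro i hi
        have hi' : i < D := by simpa using hi
        obtain ⟨h3, h4, h5⟩ := hf i hi'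
        have h6 : (i + 1) * w ≤ D * w := Nat.mul_le_mul_right _ hi'
        simp only [coe_filter, mem_range, Set.mem_ofPred_eq]
        exact ⟨by omega, h5⟩
      · intro i hi j hj hij
        have hi' : i < D := by simpa using hi
        have hj' : j < D := by simpa using hj
        obtain ⟨h3, h4, -⟩ := hf i hi'
        obtain ⟨h5, h6, -⟩ := hf j hj'
        rw [hij] at h3 h4
        have h7 : i * w < (j + 1) * w := by omega
        have h8 : j * w < (i + 1) * w := by omega
        have h9 := lt_of_mul_lt_mul_right h7 (Nat.zero_le _)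
        have h10 := lt_of_mul_lt_mul_right h8 (Nat.zero_le _)
        omega
    rw [card_range] at h2
    omega
  obtain ⟨i, hi, hgap⟩ := h1
  have h2 : (i + 1) * w ≤ D * w := Nat.mul_le_mul_right _ hi
  have h3 : 0 < (i + 1) * w := by positivity
  have h4 : ∃ k, Y + (i + 1) * w ≤ k ∧ p k := by
    obtain ⟨k, h5, h6, h7⟩ := hratio (Y + (i + 1) * w)
    exact ⟨k, h5.le, h7⟩
  classical
  refine ⟨Nat.find h4, (Nat.find_spec h4).2, ?_, ?_, ?_⟩
  · have h5 := (Nat.find_spec h4).1
    have h6 : 1 * w ≤ (i + 1) * w := Nat.mul_le_mul_right _ (by omega)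
    omega
  · obtain ⟨k, h5, h6, h7⟩ := hratio (Y + (i + 1) * w - 1)
    have h8 : Nat.find h4 ≤ k := Nat.find_min' h4 ⟨by omega, h7⟩
    omega
  · intro k h5 h6 h7
    have h8 := (Nat.find_spec h4).1
    have h9 : ¬ (Y + (i + 1) * w ≤ k ∧ p k) := Nat.find_min h4 h6
    have h10 : k < Y + (i + 1) * w := by
      by_contra h11
      exact h9 ⟨by omega, h7⟩
    have h12 : (i + 1) * w = i * w + w := by ring
    exact hgap k (by omega) h10 h7

/-- hypotheses of the combinatorial part -/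
structure Hyp (p : ℕ → Prop) (k0 C1 L X : ℕ) : Prop where
  ratio : ∀ n, ∃ k, n < k ∧ k ≤ 2 * n + C1 ∧ p k
  loc : ∀ x u w g, k0 ≤ x → w < x → x + L < u → u + x + L ≤ X → p x → p u →
    (∀ k, x ≤ k + w → k < x → ¬ p k) → (∀ k, u ≤ k + g → k < u → ¬ p k) →
    (∃ k, p k ∧ u + w < k + L ∧ k ≤ u + x + L) ∨
    (∃ i k, p i ∧ p k ∧ i < u ∧ k < u ∧ g ≤ i + L ∧ g ≤ k + L ∧ u + x ≤ i + k + L ∧
      i + k ≤ u + x + L)

theorem block {p : ℕ → Prop} [DecidablePred p] {k0 C1 L X D Q P : ℕ} (h : Hyp p k0 C1 L X)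
    (hD : ((range X).filter p).card < D) (hQ : Q = 100 * (L + C1 + k0 + 1)) (hP : P = D * Q)
    {t : ℕ} (ht : 1 ≤ t) (htX : P ^ (t + 2) ≤ X) :
    t ≤ 2 * ((Ico (P ^ t) (P ^ (t + 2))).filter p).card := by
  classical
  have hD0 : 0 < D := by omega
  have hQ0 : 0 < Q := by omega
  have hQP : Q ≤ P := by
    rw [hP]
    exact Nat.le_mul_of_pos_left _ hD0
  have hP100 : 100 ≤ P := by omega
  have hpow : ∀ i, 1 ≤ P ^ i := fun i => Nat.one_le_pow _ _ (by omega)
  have hstep : ∀ i, 100 * P ^ i ≤ P ^ (i + 1) := fun i => by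
    rw [pow_succ, mul_comm]
    exact Nat.mul_le_mul_left _ hP100
  have hPle : ∀ i, 1 ≤ i → P ≤ P ^ i := fun i hi => Nat.le_self_pow (by omega) P
  have hmono : ∀ i j, i ≤ j → P ^ i ≤ P ^ j := fun i j hij => Nat.pow_le_pow_right (by omega) hij
  have hQi : ∀ i, 100 * P ^ i + 99 * L ≤ Q * P ^ i := by
    intro i
    have h1 := hpow i
    rw [hQ]
    have h2 : 100 * P ^ i + 100 * (L + C1 + k0) * 1 ≤ 100 * P ^ i + 100 * (L + C1 + k0) * P ^ i :=
      Nat.add_le_add_left (Nat.mul_le_mul_left _ h1) _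
    have h3 : 100 * (L + C1 + k0 + 1) * P ^ i = 100 * P ^ i + 100 * (L + C1 + k0) * P ^ i := by
      ring
    omega
  -- the points x_i
  have hx : ∀ i, i ≤ t → ∃ x, p x ∧ P ^ (i + 1) + Q * P ^ i ≤ x ∧ x ≤ 4 * P ^ (i + 1) + C1 ∧
      ∀ k, x ≤ k + Q * P ^ i → k < x → ¬ p k := by
    intro i hi
    refine exists_left_gap h.ratio hD ?_ ?_ ?_
    · have h1 := hstep (i + 1)
      have h2 := hmono (i + 2) (t + 2) (by omega)
      have h3 : i + 1 + 1 = i + 2 := rfl
      rw [h3] at h1
      omega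
    · exact Nat.mul_pos hQ0 (hpow i)
    · rw [hP, pow_succ]
      ring
  obtain ⟨u, hpu, hu1, hu2, hu3⟩ := hx t le_rfl
  have hPt1 := hstep t
  have hPt2 : 100 * P ^ (t + 1) ≤ P ^ (t + 2) := hstep (t + 1)
  have hPt3 := hPle t ht
  have hPt4 := hPle (t + 1) (by omega)
  have hQt := hQi t
  set Z := (Ico (P ^ t) u).filter p with hZ
  set V := Z ∪ Z.image (fun k => u - k) with hV
  set W := (Ico u (P ^ (t + 2))).filter p with hW
  have hVcard : V.card ≤ 2 * Z.card := by
    refine (card_union_le _ _).trans ?_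
    have := card_image_le (s := Z) (f := fun k => u - k)
    omega
  have huX : u ≤ P ^ (t + 2) := by omega
  have hZr : Z.card ≤ ((range X).filter p).card := by
    refine card_le_card fun k hk => ?_
    rw [hZ, mem_filter, mem_Ico] at hk
    rw [mem_filter, mem_range]
    exact ⟨by omega, hk.2⟩
  have hZW : Z.card + W.card ≤ ((Ico (P ^ t) (P ^ (t + 2))).filter p).card := by
    rw [← card_union_of_disjoint]
    · refine card_le_card fun k hk => ?_
      rw [mem_union, hZ, hW, mem_filter, mem_filter, mem_Ico, mem_Ico] at hk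
      rw [mem_filter, mem_Ico]
      rcases hk with hk | hk
      · exact ⟨⟨hk.1.1, by omega⟩, hk.2⟩
      · exact ⟨⟨by omega, hk.1.2⟩, hk.2⟩
    · rw [Finset.disjoint_left]
      intro k hk1 hk2
      rw [hZ, mem_filter, mem_Ico] at hk1
      rw [hW, mem_filter, mem_Ico] at hk2
      omega
  -- the dichotomy
  have hdich : ∀ i, i < t → (∃ k ∈ W, u + 6 * P ^ i < k ∧ k ≤ u + 6 * P ^ (i + 1)) ∨
      (∃ v ∈ V, (∀ y ∈ V, v < y → v + 6 * P ^ i < y) ∧ ∃ y ∈ V, v < y ∧ y ≤ v + 6 * P ^ (i + 1)) := by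
    intro i hi
    obtain ⟨x, hpx, hx1, hx2, hx3⟩ := hx i hi.le
    have h1 := hpow i
    have h2 := hstep i
    have h3 := hPle (i + 1) (by omega)
    have h4 := hQi i
    have h5 := hmono (i + 1) t (by omega)
    have h6 := hpow (i + 1)
    rcases h.loc x u (Q * P ^ i) (Q * P ^ t) (by omega) (by omega) (by omega) (by omega) hpx hpu
      hx3 hu3 with ⟨k, hk1, hk2, hk3⟩ | ⟨i', k, hi1, hk1, hiu, hku, hgi, hgk, hs1, hs2⟩
    · left
      refine ⟨k, ?_, by omega, by omega⟩
      rw [hW, mem_filter, mem_Ico]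
      exact ⟨⟨by omega, by omega⟩, hk1⟩
    · right
      have hiZ : i' ∈ Z := by
        rw [hZ, mem_filter, mem_Ico]
        exact ⟨⟨by omega, hiu⟩, hi1⟩
      have hkZ : k ∈ Z := by
        rw [hZ, mem_filter, mem_Ico]
        exact ⟨⟨by omega, hku⟩, hk1⟩
      have h7 : V.card * (6 * P ^ i) < i' - (u - k) := by
        have h8 : V.card ≤ 2 * D := by omega
        have h9 : V.card * (6 * P ^ i) ≤ 2 * D * (6 * P ^ i) := Nat.mul_le_mul_right _ h8
        have h10 : P ^ (i + 1) = D * P ^ i * Q := by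
          rw [pow_succ]
          nth_rewrite 2 [hP]
          ring
        have h11 : D * P ^ i * 100 ≤ D * P ^ i * Q := Nat.mul_le_mul_left _ (by omega)
        have h12 : 2 * D * (6 * P ^ i) = 12 * (D * P ^ i) := by ring
        have h13 : 0 < D * P ^ i := Nat.mul_pos hD0 h1
        omega
      obtain ⟨v, hv1, hv2, y, hy1, hy2, hy3⟩ := exists_gap V (a := u - k) (b := i')
        (mem_union_right _ (mem_image_of_mem _ hkZ)) (mem_union_left _ hiZ) (by omega) h7
      exact ⟨v, hv1, hv2, y, hy1, hy2, by omega⟩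
  -- counting
  have hlem : ∀ i j, i < j → 6 * P ^ (i + 1) ≤ 6 * P ^ j := fun i j hij =>
    Nat.mul_le_mul_left _ (hmono _ _ hij)
  set IA := (range t).filter fun i => ∃ k ∈ W, u + 6 * P ^ i < k ∧ k ≤ u + 6 * P ^ (i + 1) with hIA
  set IB := (range t).filter fun i => ¬ ∃ k ∈ W, u + 6 * P ^ i < k ∧ k ≤ u + 6 * P ^ (i + 1) with hIB
  have hIAB : IA.card + IB.card = t := by
    rw [hIA, hIB, card_filter_add_card_filter_not, card_range]
  have hA : IA.card ≤ W.card := by
    have h1 : ∀ i : ℕ, ∃ k, i ∈ IA → (k ∈ W ∧ u + 6 * P ^ i < k ∧ k ≤ u + 6 * P ^ (i + 1)) := by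
      intro i
      by_cases hi : i ∈ IA
      · rw [hIA, mem_filter] at hi
        obtain ⟨k, h1, h2⟩ := hi.2
        exact ⟨k, fun _ => ⟨h1, h2⟩⟩
      · exact ⟨0, fun h => absurd h hi⟩
    choose f hf using h1
    refine card_le_card_of_injOn f (fun i hi => (hf i hi).1) ?_
    intro i hi j hj hij
    obtain ⟨-, h2, h3⟩ := hf i hi
    obtain ⟨-, h4, h5⟩ := hf j hj
    rw [hij] at h2 h3
    rcases lt_trichotomy i j with hlt | heq | hgt
    · have := hlem i j hlt
      omega
    · exact heq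
    · have := hlem j i hgt
      omega
  have hB : IB.card ≤ V.card := by
    have h1 : ∀ i : ℕ, ∃ v, i ∈ IB → (v ∈ V ∧ (∀ y ∈ V, v < y → v + 6 * P ^ i < y) ∧
        ∃ y ∈ V, v < y ∧ y ≤ v + 6 * P ^ (i + 1)) := by
      intro i
      by_cases hi : i ∈ IB
      · rw [hIB, mem_filter, mem_range] at hi
        rcases hdich i hi.1 with h2 | ⟨v, h2, h3⟩
        · exact absurd h2 hi.2
        · exact ⟨v, fun _ => ⟨h2, h3⟩⟩
      · exact ⟨0, fun h => absurd h hi⟩
    choose f hf using h1
    refine card_le_card_of_injOn f (fun i hi => (hf i hi).1) ?_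
    intro i hi j hj hij
    obtain ⟨-, h2, y, hy1, hy2, hy3⟩ := hf i hi
    obtain ⟨-, h4, z, hz1, hz2, hz3⟩ := hf j hj
    rw [hij] at h2 hy2 hy3
    rcases lt_trichotomy i j with hlt | heq | hgt
    · have h5 := hlem i j hlt
      have h6 := h4 y hy1 hy2
      omega
    · exact heq
    · have h5 := hlem j i hgt
      have h6 := h2 z hz1 hz2
      omega
  omega

theorem count_lower {p : ℕ → Prop} [DecidablePred p] {k0 C1 L X D Q P : ℕ} (h : Hyp p k0 C1 L X)
    (hD : ((range X).filter p).card < D) (hQ : Q = 100 * (L + C1 + k0 + 1)) (hP : P = D * Q)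
    {S : ℕ} (hS : P ^ (2 * S + 1) ≤ X) :
    S ^ 2 ≤ 2 * ((range X).filter p).card := by
  have hD0 : 0 < D := by omega
  have hP0 : 0 < P := by rw [hP]; exact Nat.mul_pos hD0 (by omega)
  have key : ∀ s, s ≤ S → s ^ 2 ≤ 2 * ((range (P ^ (2 * s + 1))).filter p).card := by
    intro s
    induction s with
    | zero => intro _; simp
    | succ s ih =>
      intro hs
      have h1 := ih (by omega)
      have h2 : P ^ (2 * s + 1 + 2) ≤ X :=
        (Nat.pow_le_pow_right hP0 (by omega)).trans hS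
      have h3 := block h hD hQ hP (t := 2 * s + 1) (by omega) h2
      have h4 : ((range (P ^ (2 * s + 1))).filter p).card +
          ((Ico (P ^ (2 * s + 1)) (P ^ (2 * s + 1 + 2))).filter p).card ≤
          ((range (P ^ (2 * (s + 1) + 1))).filter p).card := by
        rw [← card_union_of_disjoint]
        · refine card_le_card fun k hk => ?_
          have h5 : P ^ (2 * s + 1) ≤ P ^ (2 * (s + 1) + 1) :=
            Nat.pow_le_pow_right hP0 (by omega)
          have h6 : 2 * s + 1 + 2 = 2 * (s + 1) + 1 := by ring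
          rw [h6] at hk
          rw [mem_union, mem_filter, mem_filter, mem_range, mem_Ico] at hk
          rw [mem_filter, mem_range]
          rcases hk with hk | hk
          · exact ⟨by omega, hk.2⟩
          · exact ⟨hk.1.2, hk.2⟩
        · rw [Finset.disjoint_left]
          intro k hk1 hk2
          rw [mem_filter, mem_range] at hk1
          rw [mem_filter, mem_Ico] at hk2
          omega
      have h7 : (s + 1) ^ 2 = s ^ 2 + (2 * s + 1) := by ring
      omega
  refine (key S le_rfl).trans (Nat.mul_le_mul_left _ (card_le_card fun k hk => ?_))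
  rw [mem_filter, mem_range] at hk ⊢
  exact ⟨by omega, hk.2⟩

end Pool.Agent.Helper80K9.DC
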