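import Pool.Agent.Helper80K9.DC.Seq

/-!
# Liouville's inequality: the nonzero terms are not too sparse
-/

set_option autoImplicit false

open Finset

namespace Pool.Agent.Helper80K9.DC

namespace Dat

variable (S : Dat)

/-- the numerators of the partial sums -/
def num : ℕ → ℤ
  | 0 => S.δ 0
  | n + 1 => S.b * num n + S.δ (n + 1)

theorem num_eq (n : ℕ) : (S.b : ℝ) ^ (n + 1) * S.τ 0 = S.b * S.num n + S.τ (n + 1) := by
  induction n with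
  | zero =>
    rw [S.hτ 0]
    simp only [num]
    ring
  | succ n ih =>
    rw [S.hτ (n + 1)]
    simp only [num]
    push_cast
    linear_combination (S.b : ℝ) * ih

theorem norm_ne_zero (n : ℕ) : S.A * (S.b * S.num n) ^ 2 +
    S.B * (S.b * S.num n) * S.b ^ (n + 1) + S.C * (S.b ^ (n + 1)) ^ 2 ≠ 0 := by
  intro h0
  have h1 : (S.A : ℝ) * (S.b * S.num n) ^ 2 +
    S.B * (S.b * S.num n) * S.b ^ (n + 1) + S.C * (S.b ^ (n + 1)) ^ 2 = 0 := by exact_mod_cast h0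
  have h2 := S.hrel
  have hb0 : (S.b : ℝ) ≠ 0 := by have := S.hbR; intro h; linarith
  have hA0 : (S.A : ℝ) ≠ 0 := by exact_mod_cast S.hA
  have hbn : (S.b : ℝ) ^ (n + 1) ≠ 0 := pow_ne_zero _ hb0
  have h3 : ((S.b : ℝ) * S.num n - S.b ^ (n + 1) * S.τ 0) *
      (S.A * (S.b * S.num n + S.b ^ (n + 1) * S.τ 0) + S.B * S.b ^ (n + 1)) = 0 := by
    linear_combination h1 - ((S.b : ℝ) ^ (n + 1)) ^ 2 * h2
  rcases mul_eq_zero.1 h3 with h4 | h4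
  · apply S.hirr
    refine ⟨((S.b * S.num n : ℤ) : ℚ) / ((S.b ^ (n + 1) : ℕ) : ℚ), ?_⟩
    push_cast
    rw [div_eq_iff hbn]
    linarith
  · apply S.hirr
    refine ⟨((-(S.B * S.b ^ (n + 1) + S.A * (S.b * S.num n)) : ℤ) : ℚ) /
      ((S.A * S.b ^ (n + 1) : ℤ) : ℚ), ?_⟩
    push_cast
    rw [div_eq_iff (mul_ne_zero hA0 hbn)]
    linarith

/-- the constant in Liouville's inequality -/
noncomputable def G : ℝ := (3 * |(S.A : ℝ)| + |(S.B : ℝ)|) * S.M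

theorem liouville (n : ℕ) : 1 ≤ |S.τ (n + 1)| * ((S.b : ℝ) ^ (n + 1) * S.G) := by
  have hM0 : 0 < S.M := lt_of_lt_of_le one_pos S.hM1
  have hb := S.hbR
  have hb1 : (1 : ℝ) ≤ (S.b : ℝ) ^ (n + 1) := one_le_pow₀ (by linarith)
  have h1 := S.norm_ne_zero n
  have h2 : (1 : ℝ) ≤ |((S.A * (S.b * S.num n) ^ 2 +
    S.B * (S.b * S.num n) * S.b ^ (n + 1) + S.C * (S.b ^ (n + 1)) ^ 2 : ℤ) : ℝ)| := by
    exact_mod_cast Int.one_le_abs h1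
  have h3 := S.num_eq n
  have h4 := S.hrel
  have h5 : ((S.A * (S.b * S.num n) ^ 2 +
    S.B * (S.b * S.num n) * S.b ^ (n + 1) + S.C * (S.b ^ (n + 1)) ^ 2 : ℤ) : ℝ) =
      -(S.τ (n + 1) * (2 * S.A * (S.b : ℝ) ^ (n + 1) * S.τ 0 + S.B * (S.b : ℝ) ^ (n + 1) -
        S.A * S.τ (n + 1))) := by
    push_cast
    have h6 : (S.b : ℝ) * S.num n = (S.b : ℝ) ^ (n + 1) * S.τ 0 - S.τ (n + 1) := by linarith
    rw [h6]
    linear_combination ((S.b : ℝ) ^ (n + 1)) ^ 2 * h4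
  rw [h5, abs_neg, abs_mul] at h2
  refine h2.trans (mul_le_mul_of_nonneg_left ?_ (abs_nonneg _))
  have h7 : |2 * (S.A : ℝ) * (S.b : ℝ) ^ (n + 1) * S.τ 0| ≤
      2 * |(S.A : ℝ)| * (S.b : ℝ) ^ (n + 1) * S.M := by
    rw [abs_mul, abs_mul, abs_mul, abs_two, abs_of_nonneg (by positivity :
      (0 : ℝ) ≤ (S.b : ℝ) ^ (n + 1))]
    exact mul_le_mul_of_nonneg_left (S.hM 0) (by positivity)
  have h8 : |(S.B : ℝ) * (S.b : ℝ) ^ (n + 1)| ≤ |(S.B : ℝ)| * (S.b : ℝ) ^ (n + 1) * S.M := by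
    rw [abs_mul, abs_of_nonneg (by positivity : (0 : ℝ) ≤ (S.b : ℝ) ^ (n + 1))]
    have : 0 ≤ |(S.B : ℝ)| * (S.b : ℝ) ^ (n + 1) := by positivity
    nlinarith [S.hM1]
  have h9 : |(S.A : ℝ) * S.τ (n + 1)| ≤ |(S.A : ℝ)| * (S.b : ℝ) ^ (n + 1) * S.M := by
    rw [abs_mul]
    calc |(S.A : ℝ)| * |S.τ (n + 1)| ≤ |(S.A : ℝ)| * S.M :=
          mul_le_mul_of_nonneg_left (S.hM _) (abs_nonneg _)
      _ = |(S.A : ℝ)| * 1 * S.M := by ring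
      _ ≤ |(S.A : ℝ)| * (S.b : ℝ) ^ (n + 1) * S.M := by
          refine mul_le_mul_of_nonneg_right ?_ hM0.le
          exact mul_le_mul_of_nonneg_left hb1 (abs_nonneg _)
  calc |2 * (S.A : ℝ) * (S.b : ℝ) ^ (n + 1) * S.τ 0 + S.B * (S.b : ℝ) ^ (n + 1) -
        S.A * S.τ (n + 1)|
      ≤ |2 * (S.A : ℝ) * (S.b : ℝ) ^ (n + 1) * S.τ 0| + |(S.B : ℝ) * (S.b : ℝ) ^ (n + 1)| +
        |(S.A : ℝ) * S.τ (n + 1)| := by
        refine (abs_sub _ _).trans (add_le_add (abs_add_le _ _) le_rfl)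
    _ ≤ 2 * |(S.A : ℝ)| * (S.b : ℝ) ^ (n + 1) * S.M + |(S.B : ℝ)| * (S.b : ℝ) ^ (n + 1) * S.M +
        |(S.A : ℝ)| * (S.b : ℝ) ^ (n + 1) * S.M := add_le_add (add_le_add h7 h8) h9
    _ = (S.b : ℝ) ^ (n + 1) * S.G := by unfold G; ring

theorem tau_step {n j : ℕ} (h : ∀ k, n < k → k ≤ n + j → S.δ k = 0) :
    S.τ (n + 1 + j) = (S.b : ℝ) ^ j * S.τ (n + 1) := by
  induction j with
  | zero => simp
  | succ j ih =>
    have h1 := ih fun k h1 h2 => h k h1 (by omega)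
    have h2 : n + 1 + (j + 1) = (n + 1 + j) + 1 := by omega
    rw [h2, S.hτ, h1, h (n + 1 + j) (by omega) (by omega)]
    push_cast
    ring

theorem ratio : ∃ C1 : ℕ, ∀ n, ∃ k, n < k ∧ k ≤ 2 * n + C1 ∧ S.δ k ≠ 0 := by
  have hM0 : 0 < S.M := lt_of_lt_of_le one_pos S.hM1
  have hb := S.hbR
  obtain ⟨C, hC⟩ := pow_unbounded_of_one_lt (S.M * S.G) (by norm_num : (1 : ℝ) < 2)
  refine ⟨C + 1, fun n => ?_⟩
  by_contra hcon
  have hz : ∀ k, n < k → k ≤ n + (n + 1 + C) → S.δ k = 0 := by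
    intro k h1 h2
    by_contra h3
    exact hcon ⟨k, h1, by omega, h3⟩
  have h1 := S.tau_step hz
  have h2 := S.hM (n + 1 + (n + 1 + C))
  rw [h1, abs_mul, abs_of_nonneg (by positivity : (0 : ℝ) ≤ (S.b : ℝ) ^ (n + 1 + C))] at h2
  have h3 := S.liouville n
  have hG : 0 ≤ S.G := by
    unfold G
    positivity
  have h4 : (S.b : ℝ) ^ C * 1 ≤ (S.b : ℝ) ^ C * (|S.τ (n + 1)| * ((S.b : ℝ) ^ (n + 1) * S.G)) :=
    mul_le_mul_of_nonneg_left h3 (by positivity)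
  have h5 : (S.b : ℝ) ^ C * (|S.τ (n + 1)| * ((S.b : ℝ) ^ (n + 1) * S.G)) =
      ((S.b : ℝ) ^ (n + 1 + C) * |S.τ (n + 1)|) * S.G := by
    rw [pow_add (S.b : ℝ) (n + 1) C]; ring
  have h6 : (S.b : ℝ) ^ C ≤ S.M * S.G := by
    have := mul_le_mul_of_nonneg_right h2 hG
    linarith
  have h7 : (2 : ℝ) ^ C ≤ (S.b : ℝ) ^ C := pow_le_pow_left₀ (by norm_num) hb C
  linarith

end Dat

end Pool.Agent.Helper80K9.DC
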