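import Pool.Agent.Helper80K9.DC.Local
import Pool.Agent.Helper80K9.DC.Ratio
import Pool.Agent.Helper80K9.DC.Comb

/-!
# The number of nonzero terms
-/

set_option autoImplicit false

open Finset Filter

namespace Pool.Agent.Helper80K9.DC

namespace Dat

variable (S : Dat)

theorem exists_hyp : ∃ C1 X1 : ℕ, ∀ X, X1 ≤ X →
    Hyp (fun k => S.δ k ≠ 0) S.k0 C1 (2 * (Nat.log 2 X + 1)) X := by
  obtain ⟨C1, hC1⟩ := S.ratio
  have hA0 : (0 : ℝ) < |(S.A : ℝ)| := abs_pos.2 (by exact_mod_cast S.hA)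
  have hc0 := S.hc0
  have hK := S.K_nonneg
  set ε : ℝ := min 1 (2 * |(S.A : ℝ)| * S.c0 ^ 2) with hε
  have hε0 : 0 < ε := lt_min one_pos (by positivity)
  set G : ℝ := S.K + 4 * |(S.A : ℝ)| * S.M ^ 2 with hG
  have hG0 : 0 ≤ G := by positivity
  obtain ⟨X1, hX1⟩ := exists_nat_gt (3 * G / ε)
  refine ⟨C1, max X1 1, fun X hX => ⟨hC1, ?_⟩⟩
  have hX1' : (X1 : ℝ) ≤ X := by exact_mod_cast (le_max_left _ _).trans hX
  have hX1'' : (1 : ℝ) ≤ X := by exact_mod_cast (le_max_right _ _).trans hX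
  have hmain : G * ((X : ℝ) + 2) < ε * (X : ℝ) ^ 2 := by
    have h1 : 3 * G < ε * X := by
      rw [div_lt_iff₀ hε0] at hX1
      nlinarith
    nlinarith
  set L := 2 * (Nat.log 2 X + 1) with hL
  have hpow : (X : ℝ) ^ 2 ≤ 2 ^ L := by
    have h1 : X < 2 ^ (Nat.log 2 X + 1) := Nat.lt_pow_succ_log_self (by norm_num) X
    have h2 : (X : ℝ) ≤ 2 ^ (Nat.log 2 X + 1) := by exact_mod_cast h1.le
    rw [hL, mul_comm 2, pow_mul]
    exact pow_le_pow_left₀ (by linarith) h2 2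
  have hLX : ((L : ℕ) : ℝ) + 2 ≤ 2 * ((X : ℝ) + 2) := by
    have h1 : Nat.log 2 X ≤ X := (Nat.log_lt_self 2 (by
      have : 1 ≤ X := (le_max_right _ _).trans hX
      omega)).le
    have h2 : L + 2 ≤ 2 * (X + 2) := by omega
    exact_mod_cast h2
  intro x u w g hx0 hwx hxu huX hpx hpu hgx hgu
  have huX' : (((u + x + L : ℕ) : ℝ)) + 2 ≤ (X : ℝ) + 2 := by
    have : (((u + x + L : ℕ) : ℝ)) ≤ (X : ℝ) := by exact_mod_cast huX
    linarith
  have h3 : S.K * (((u + x + L : ℕ) : ℝ) + 2) ≤ S.K * ((X : ℝ) + 2) :=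
    mul_le_mul_of_nonneg_left huX' hK
  have h4 : S.K * ((X : ℝ) + 2) + 2 * |(S.A : ℝ)| * (S.M ^ 2 * (L + 2)) ≤ G * ((X : ℝ) + 2) := by
    have h5 : 2 * |(S.A : ℝ)| * (S.M ^ 2 * (L + 2)) ≤
        2 * |(S.A : ℝ)| * (S.M ^ 2 * (2 * ((X : ℝ) + 2))) := by
      refine mul_le_mul_of_nonneg_left ?_ (by positivity)
      exact mul_le_mul_of_nonneg_left hLX (by positivity)
    rw [hG]
    linarith
  have h6 : 0 ≤ 2 * |(S.A : ℝ)| * (S.M ^ 2 * ((L : ℝ) + 2)) := by positivity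
  refine S.local_lemma hx0 hwx hxu hpx hpu (fun k h1 h2 => not_not.1 (hgx k h1 h2))
    (fun k h1 h2 => not_not.1 (hgu k h1 h2)) ?_ ?_
  · have h7 : ε * (X : ℝ) ^ 2 ≤ 1 * 2 ^ L :=
      mul_le_mul (min_le_left _ _) hpow (by positivity) (by norm_num)
    linarith
  · have h7 : ε * (X : ℝ) ^ 2 ≤ (2 * |(S.A : ℝ)| * S.c0 ^ 2) * 2 ^ L :=
      mul_le_mul (min_le_right _ _) hpow (by positivity) (by positivity)
    have h8 : 2 * |(S.A : ℝ)| * (2 ^ L * S.c0 ^ 2 - S.M ^ 2 * ((L : ℝ) + 2)) =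
      (2 * |(S.A : ℝ)| * S.c0 ^ 2) * 2 ^ L - 2 * |(S.A : ℝ)| * (S.M ^ 2 * ((L : ℝ) + 2)) := by ring
    rw [h8]
    linarith

theorem main (m : ℕ) : ∃ N0 : ℕ, ∀ X : ℕ, N0 ≤ X →
    (1 / 100) * (Real.log X / Real.log (Real.log X)) ^ 2 + m ≤
      (((range X).filter fun k => S.δ k ≠ 0).card : ℝ) := by
  obtain ⟨C1, X1, hhyp⟩ := S.exists_hyp
  have hlog : Tendsto (fun X : ℕ => Real.log X) atTop atTop :=
    Real.tendsto_log_atTop.comp tendsto_natCast_atTop_atTop
  have hlog2 : Tendsto (fun X : ℕ => Real.log (Real.log X)) atTop atTop :=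
    Real.tendsto_log_atTop.comp hlog
  set c : ℝ := 1 / (200 + 4900 * m) with hc
  have hc0 : 0 < c := by positivity
  have e1 := hlog2.eventually_ge_atTop 8
  have e2 := hlog.eventually_ge_atTop ((C1 : ℝ) + S.k0 + 3 + 200 * (m + 1))
  have e3 := hlog.eventually (Real.isLittleO_log_id_atTop.def hc0)
  have e4 := eventually_ge_atTop X1
  have e5 := eventually_ge_atTop 1
  rw [← eventually_atTop]
  filter_upwards [e1, e2, e3, e4, e5] with X h1 h2 h3 h4 h5
  set l := Real.log X with hl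
  set l2 := Real.log l with hl2
  have hm0 : (0 : ℝ) ≤ m := Nat.cast_nonneg m
  have hC0 : (0 : ℝ) ≤ C1 := Nat.cast_nonneg C1
  have hk0 : (0 : ℝ) ≤ S.k0 := Nat.cast_nonneg _
  have hl200 : 200 * ((m : ℝ) + 1) ≤ l := by linarith
  have hl1 : (200 : ℝ) ≤ l := by linarith
  have hX0 : (0 : ℝ) < X := by exact_mod_cast h5
  simp only [id, Real.norm_eq_abs] at h3
  rw [abs_of_nonneg (by linarith), abs_of_nonneg (by linarith)] at h3
  set y := l / l2 with hy
  have hl20 : 0 < l2 := by linarith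
  have hy1 : 200 + 4900 * (m : ℝ) ≤ y := by
    rw [hy, le_div_iff₀ hl20]
    rw [hc] at h3
    have h6 : (0 : ℝ) < 200 + 4900 * m := by positivity
    have h7 : 1 / (200 + 4900 * (m : ℝ)) * l = l / (200 + 4900 * m) := by ring
    rw [h7, le_div_iff₀ h6] at h3
    linarith
  by_contra hcon
  push Not at hcon
  set r := ((range X).filter fun k => S.δ k ≠ 0).card with hr
  set L := 2 * (Nat.log 2 X + 1) with hL
  set Q := 100 * (L + C1 + S.k0 + 1) with hQ
  set P := (r + 1) * Q with hP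
  -- bounds
  have hL1 : (L : ℝ) + C1 + S.k0 + 1 ≤ 4 * l := by
    have h6 : (2 : ℝ) ^ (Nat.log 2 X) ≤ X := by
      exact_mod_cast Nat.pow_log_le_self 2 (by omega)
    have h7 : (Nat.log 2 X : ℝ) * Real.log 2 ≤ l := by
      rw [hl, ← Real.log_pow]
      exact Real.log_le_log (by positivity) h6
    have h8 : (0.6931471803 : ℝ) < Real.log 2 := Real.log_two_gt_d9
    have h9 : (0 : ℝ) ≤ (Nat.log 2 X : ℝ) := Nat.cast_nonneg _
    rw [hL]
    push_cast
    nlinarith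
  have hQ1 : (Q : ℝ) ≤ 400 * l := by
    rw [hQ]
    push_cast
    linarith
  have hD1 : (r : ℝ) + 1 ≤ l ^ 2 / 100 := by
    have h6 : y ≤ l / 8 := by
      rw [hy]
      exact div_le_div_of_nonneg_left (by linarith) (by norm_num) h1
    have h7 : y ^ 2 ≤ (l / 8) ^ 2 := pow_le_pow_left₀ (by linarith) h6 2
    nlinarith
  have hP1 : (P : ℝ) ≤ 4 * l ^ 3 := by
    rw [hP]
    push_cast
    have h6 : ((r : ℝ) + 1) * Q ≤ (l ^ 2 / 100) * (400 * l) :=
      mul_le_mul hD1 hQ1 (Nat.cast_nonneg _) (by positivity)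
    linarith [h6, (by ring : (l ^ 2 / 100) * (400 * l) = 4 * l ^ 3)]
  have hP0 : (0 : ℝ) < P := by
    have : 0 < P := by
      rw [hP]
      exact Nat.mul_pos (Nat.succ_pos _) (by omega)
    exact_mod_cast this
  have hlP : Real.log P ≤ 3 * l2 + 2 := by
    have h6 : Real.log P ≤ Real.log (4 * l ^ 3) := Real.log_le_log hP0 hP1
    have h7 : Real.log (4 * l ^ 3) = Real.log 4 + 3 * l2 := by
      rw [Real.log_mul (by norm_num) (by positivity), Real.log_pow]
      push_cast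
      ring
    have h8 : Real.log 4 ≤ 2 := by
      have h9 : Real.log 4 = 2 * Real.log 2 := by
        rw [show (4 : ℝ) = 2 ^ 2 by norm_num, Real.log_pow]
        push_cast
        ring
      have h10 := Real.log_two_lt_d9
      rw [h9]
      linarith
    linarith
  -- the choice of the number of blocks
  set z := l / (3 * l2 + 2) with hz
  have hz1 : y * (1 / (13 / 4)) ≤ z := by
    rw [hz, hy, div_mul_div_comm, mul_one]
    refine div_le_div_of_nonneg_left (by linarith) (by positivity) ?_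
    linarith
  set T := ⌊(z - 1) / 2⌋₊ with hT
  have hz0 : 0 ≤ (z - 1) / 2 := by linarith
  have hT1 : (T : ℝ) ≤ (z - 1) / 2 := Nat.floor_le hz0
  have hT2 : (z - 1) / 2 < T + 1 := Nat.lt_floor_add_one _
  have hPX : P ^ (2 * T + 1) ≤ X := by
    have h6 : (P : ℝ) ^ (2 * T + 1) ≤ X := by
      rw [← Real.log_le_log_iff (by positivity) hX0, Real.log_pow]
      push_cast
      have h7 : (2 * (T : ℝ) + 1) * Real.log P ≤ (2 * T + 1) * (3 * l2 + 2) :=
        mul_le_mul_of_nonneg_left hlP (by positivity)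
      have h8 : (2 * (T : ℝ) + 1) * (3 * l2 + 2) ≤ z * (3 * l2 + 2) :=
        mul_le_mul_of_nonneg_right (by linarith) (by positivity)
      have h9 : z * (3 * l2 + 2) = l := by
        rw [hz]
        field_simp
      linarith
    exact_mod_cast h6
  have h6 := count_lower (hhyp X h4) (D := r + 1) (Q := Q) (P := P) (Nat.lt_succ_self _) hQ hP
    (S := T) hPX
  have h7 : (T : ℝ) ^ 2 ≤ 2 * r := by exact_mod_cast h6
  have h8 : y / 7 ≤ T := by linarith
  have h9 : (y / 7) ^ 2 ≤ (T : ℝ) ^ 2 := pow_le_pow_left₀ (by linarith) h8 2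
  have h10 : (200 + 4900 * (m : ℝ)) * y ≤ y * y := mul_le_mul_of_nonneg_right hy1 (by linarith)
  have h11 : (m : ℝ) * 200 ≤ m * y := mul_le_mul_of_nonneg_left (by linarith) hm0
  have h12 : y ^ 2 = y * y := sq y
  have h13 : (y / 7) ^ 2 = y * y / 49 := by ring
  rw [h13] at h9
  rw [h12] at hcon
  linarith

end Dat

end Pool.Agent.Helper80K9.DC
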