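import Pool.Agent.Helper80K9.DC.Asym

/-!
# The digits of a real quadratic irrational
-/

set_option autoImplicit false

open Finset Filter

namespace Pool.Agent.Helper80K9.DC

/-- the `k`-th digit of `ξ` in base `b` -/
noncomputable def dig (b : ℕ) (ξ : ℝ) (k : ℕ) : ℤ := ⌊ξ * (b : ℝ) ^ k⌋ % b

/-- the digits, with the integer part as the term of index `0` -/
noncomputable def aa (b : ℕ) (ξ : ℝ) : ℕ → ℤ
  | 0 => ⌊ξ * (b : ℝ) ^ 0⌋
  | k + 1 => ⌊ξ * (b : ℝ) ^ (k + 1)⌋ - b * ⌊ξ * (b : ℝ) ^ k⌋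

/-- the tails -/
noncomputable def ph (b : ℕ) (ξ : ℝ) : ℕ → ℝ
  | 0 => ξ
  | k + 1 => b * Int.fract (ξ * (b : ℝ) ^ k)

theorem ph_step (b : ℕ) (ξ : ℝ) (n : ℕ) : ph b ξ (n + 1) = b * (ph b ξ n - aa b ξ n) := by
  cases n with
  | zero =>
    simp only [ph, aa, pow_zero, mul_one, Int.fract]
  | succ n =>
    simp only [ph, aa, Int.fract]
    push_cast
    ring

theorem ph_succ (b : ℕ) (ξ : ℝ) (n : ℕ) :
    ph b ξ (n + 1) = b * Int.fract (ξ * (b : ℝ) ^ n) := rfl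

theorem ph_bound (b : ℕ) (ξ : ℝ) (n : ℕ) : |ph b ξ n| ≤ b + |ξ| := by
  have h1 : (0 : ℝ) ≤ b := Nat.cast_nonneg b
  have h2 := abs_nonneg ξ
  cases n with
  | zero => simp only [ph]; linarith
  | succ n =>
    simp only [ph]
    rw [abs_mul, abs_of_nonneg h1, abs_of_nonneg (Int.fract_nonneg _)]
    have := (Int.fract_lt_one (ξ * (b : ℝ) ^ n)).le
    nlinarith

theorem aa_eq (b : ℕ) (ξ : ℝ) (k : ℕ) :
    aa b ξ (k + 1) = ⌊(b : ℝ) * Int.fract (ξ * (b : ℝ) ^ k)⌋ := by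
  simp only [aa]
  have h1 : (b : ℝ) * Int.fract (ξ * (b : ℝ) ^ k) =
      ξ * (b : ℝ) ^ (k + 1) - ((b * ⌊ξ * (b : ℝ) ^ k⌋ : ℤ) : ℝ) := by
    rw [Int.fract]
    push_cast
    ring
  rw [h1, Int.floor_sub_intCast]

theorem aa_nonneg (b : ℕ) (ξ : ℝ) (k : ℕ) : 0 ≤ aa b ξ (k + 1) := by
  rw [aa_eq]
  exact Int.floor_nonneg.2 (mul_nonneg (Nat.cast_nonneg _) (Int.fract_nonneg _))

theorem aa_lt {b : ℕ} (hb : 2 ≤ b) (ξ : ℝ) (k : ℕ) : aa b ξ (k + 1) < b := by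
  rw [aa_eq, Int.floor_lt]
  have h1 : (0 : ℝ) < b := by exact_mod_cast (by omega : 0 < b)
  have := Int.fract_lt_one (ξ * (b : ℝ) ^ k)
  push_cast
  nlinarith

theorem dig_eq {b : ℕ} (hb : 2 ≤ b) (ξ : ℝ) (k : ℕ) : dig b ξ (k + 1) = aa b ξ (k + 1) := by
  have h1 := aa_nonneg b ξ k
  have h2 := aa_lt hb ξ k
  unfold dig
  have h3 : ⌊ξ * (b : ℝ) ^ (k + 1)⌋ = aa b ξ (k + 1) + b * ⌊ξ * (b : ℝ) ^ k⌋ := by
    simp only [aa]
    ring
  rw [h3, Int.add_mul_emod_self_left, Int.emod_eq_of_lt h1 h2]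

theorem aa_bound {b : ℕ} (hb : 2 ≤ b) (ξ : ℝ) (n : ℕ) : |(aa b ξ n : ℝ)| ≤ b + |ξ| + 1 := by
  have h1 : (0 : ℝ) ≤ b := Nat.cast_nonneg b
  have h2 := abs_nonneg ξ
  cases n with
  | zero =>
    simp only [aa, pow_zero, mul_one]
    have h3 := Int.floor_le ξ
    have h4 := Int.lt_floor_add_one ξ
    rw [abs_le]
    have h5 := neg_abs_le ξ
    have h6 := le_abs_self ξ
    constructor <;> linarith
  | succ n =>
    have h3 := aa_nonneg b ξ n
    have h4 := aa_lt hb ξ n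
    have h5 : (0 : ℝ) ≤ (aa b ξ (n + 1) : ℝ) := by exact_mod_cast h3
    have h6 : (aa b ξ (n + 1) : ℝ) < b := by exact_mod_cast h4
    rw [abs_of_nonneg h5]
    linarith

theorem fract_bound {β f : ℝ} (hβ : 2 ≤ β) (hβi : ∃ n : ℤ, β = n) (hf0 : 0 ≤ f) (hf1 : f < 1) :
    |Int.fract (β * f) - f| ≤ 1 - 1 / (2 * β) := by
  obtain ⟨n, hn⟩ := hβi
  have h1 := Int.fract_nonneg (β * f)
  have h2 := Int.fract_lt_one (β * f)
  have hβ0 : 0 < β := by linarith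
  have h3 : 1 / (2 * β) ≤ 1 / 4 := by
    apply one_div_le_one_div_of_le (by norm_num)
    linarith
  have h4 : 0 < 1 / (2 * β) := by positivity
  have h5 : β * (1 / (2 * β)) = 1 / 2 := by field_simp
  rw [abs_le]
  constructor
  · by_cases h6 : f ≤ 1 - 1 / (2 * β)
    · linarith
    · push Not at h6
      have h7 : β - 1 / 2 < β * f := by nlinarith
      have h8 : β * f < β := by nlinarith
      have h9 : ⌊β * f⌋ = n - 1 := by
        rw [Int.floor_eq_iff]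
        push_cast
        constructor <;> linarith
      have h10 : Int.fract (β * f) = β * f - (n - 1) := by
        rw [Int.fract, h9]
        push_cast
        ring
      rw [h10]
      linarith
  · by_cases h6 : 1 / (2 * β) ≤ f
    · linarith
    · push Not at h6
      have h7 : β * f < 1 / 2 := by nlinarith
      have h8 : 0 ≤ β * f := by positivity
      have h9 : Int.fract (β * f) = β * f := Int.fract_eq_self.2 ⟨h8, by linarith⟩
      rw [h9]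
      linarith

theorem fract_step (b : ℕ) (ξ : ℝ) (k ℓ : ℕ) :
    Int.fract (ξ * (b : ℝ) ^ (k + ℓ)) =
      Int.fract ((b : ℝ) ^ ℓ * Int.fract (ξ * (b : ℝ) ^ k)) := by
  have h1 : (b : ℝ) ^ ℓ * Int.fract (ξ * (b : ℝ) ^ k) =
      ξ * (b : ℝ) ^ (k + ℓ) - (((b : ℤ) ^ ℓ * ⌊ξ * (b : ℝ) ^ k⌋ : ℤ) : ℝ) := by
    rw [Int.fract, pow_add]
    push_cast
    ring
  rw [h1, Int.fract_sub_intCast]

/-- the shifted differences of the digits of a quadratic irrational -/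
noncomputable def mkDat {b : ℕ} (hb : 2 ≤ b) {ξ : ℝ} (hξ : Irrational ξ) {A B C : ℤ} (hA : A ≠ 0)
    (hrel : (A : ℝ) * ξ ^ 2 + B * ξ + C = 0) {ℓ : ℕ} (hℓ : 1 ≤ ℓ) : Dat where
  b := b
  hb := hb
  δ k := aa b ξ k - if ℓ ≤ k then aa b ξ (k - ℓ) else 0
  τ k := ph b ξ k - if ℓ ≤ k then ph b ξ (k - ℓ) else ξ * (b : ℝ) ^ k / (b : ℝ) ^ ℓ
  hτ n := by
    have hb0 : (b : ℝ) ≠ 0 := by
      have : (b : ℕ) ≠ 0 := by omega
      exact_mod_cast this
    simp only [ph_step b ξ n]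
    by_cases h1 : ℓ ≤ n
    · rw [if_pos h1, if_pos h1, if_pos (by omega : ℓ ≤ n + 1)]
      have h2 : n + 1 - ℓ = (n - ℓ) + 1 := by omega
      rw [h2, ph_step b ξ (n - ℓ)]
      push_cast
      ring
    · rw [if_neg h1, if_neg h1]
      by_cases h2 : ℓ ≤ n + 1
      · have h3 : ℓ = n + 1 := by omega
        rw [if_pos h2, h3, Nat.sub_self]
        simp only [ph]
        rw [pow_succ]
        field_simp
        push_cast
        ring
      · rw [if_neg h2, pow_succ]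
        push_cast
        ring
  M := 2 * (b + |ξ| + 1)
  hM1 := by
    have h1 : (0 : ℝ) ≤ b := Nat.cast_nonneg b
    have h2 := abs_nonneg ξ
    linarith
  hM n := by
    have h1 : (0 : ℝ) ≤ b := Nat.cast_nonneg b
    have h2 := abs_nonneg ξ
    have h3 := ph_bound b ξ n
    refine (abs_sub _ _).trans ?_
    by_cases h4 : ℓ ≤ n
    · rw [if_pos h4]
      have := ph_bound b ξ (n - ℓ)
      linarith
    · rw [if_neg h4]
      have hb1 : (1 : ℝ) ≤ b := by exact_mod_cast (by omega : 1 ≤ b)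
      have h5 : (b : ℝ) ^ n ≤ (b : ℝ) ^ ℓ := pow_le_pow_right₀ hb1 (by omega)
      have h6 : (0 : ℝ) < (b : ℝ) ^ ℓ := by positivity
      have h7 : |ξ * (b : ℝ) ^ n / (b : ℝ) ^ ℓ| ≤ |ξ| := by
        rw [abs_div, abs_mul, abs_of_pos h6, abs_of_nonneg (by positivity : (0 : ℝ) ≤ (b : ℝ) ^ n),
          div_le_iff₀ h6]
        exact mul_le_mul_of_nonneg_left h5 h2
      linarith
  hδ n := by
    have h1 : (0 : ℝ) ≤ b := Nat.cast_nonneg b
    have h2 := abs_nonneg ξ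
    have h3 := aa_bound hb ξ n
    push_cast
    refine (abs_sub _ _).trans ?_
    by_cases h4 : ℓ ≤ n
    · rw [if_pos h4]
      have := aa_bound hb ξ (n - ℓ)
      linarith
    · rw [if_neg h4]
      rw [abs_zero]
      linarith
  A := A * (b ^ ℓ) ^ 2
  B := B * b ^ ℓ * (b ^ ℓ - 1)
  C := C * (b ^ ℓ - 1) ^ 2
  hA := by
    refine mul_ne_zero hA (pow_ne_zero _ (pow_ne_zero _ ?_))
    exact_mod_cast (by omega : b ≠ 0)
  hirr := by
    rw [if_neg (by omega)]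
    simp only [ph, pow_zero, mul_one]
    have hb1 : (1 : ℝ) < b := by exact_mod_cast (by omega : 1 < b)
    have h1 : (1 : ℝ) < (b : ℝ) ^ ℓ := one_lt_pow₀ hb1 (by omega)
    intro ⟨r, hr⟩
    apply hξ
    refine ⟨r * (b ^ ℓ : ℕ) / ((b ^ ℓ : ℕ) - 1), ?_⟩
    push_cast
    rw [hr]
    have h2 : (b : ℝ) ^ ℓ - 1 ≠ 0 := by linarith
    have h3 : (b : ℝ) ^ ℓ ≠ 0 := by linarith
    field_simp
  hrel := by
    rw [if_neg (by omega)]
    simp only [ph, pow_zero, mul_one]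
    have hb1 : (1 : ℝ) < b := by exact_mod_cast (by omega : 1 < b)
    have h1 : (1 : ℝ) < (b : ℝ) ^ ℓ := one_lt_pow₀ hb1 (by omega)
    have h3 : (b : ℝ) ^ ℓ ≠ 0 := by linarith
    push_cast
    have h4 : ξ - ξ / (b : ℝ) ^ ℓ = ξ * ((b : ℝ) ^ ℓ - 1) / (b : ℝ) ^ ℓ := by
      field_simp
    rw [h4]
    have h5 : (A : ℝ) * ((b : ℝ) ^ ℓ) ^ 2 * (ξ * ((b : ℝ) ^ ℓ - 1) / (b : ℝ) ^ ℓ) ^ 2 =
        A * ξ ^ 2 * ((b : ℝ) ^ ℓ - 1) ^ 2 := by
      field_simp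
    have h6 : (B : ℝ) * (b : ℝ) ^ ℓ * ((b : ℝ) ^ ℓ - 1) * (ξ * ((b : ℝ) ^ ℓ - 1) / (b : ℝ) ^ ℓ) =
        B * ξ * ((b : ℝ) ^ ℓ - 1) ^ 2 := by
      field_simp
    rw [h5, h6]
    linear_combination ((b : ℝ) ^ ℓ - 1) ^ 2 * hrel
  c0 := 1 / (2 * (b : ℝ) ^ ℓ)
  hc0 := by
    have hb1 : (1 : ℝ) < b := by exact_mod_cast (by omega : 1 < b)
    positivity
  k0 := ℓ
  hlow k hk hδ := by
    have hb2 : (2 : ℝ) ≤ b := by exact_mod_cast hb
    have hb0 : (0 : ℝ) < b := by linarith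
    have hβ : (2 : ℝ) ≤ (b : ℝ) ^ ℓ := by
      calc (2 : ℝ) ≤ b := hb2
        _ = (b : ℝ) ^ 1 := (pow_one _).symm
        _ ≤ (b : ℝ) ^ ℓ := pow_le_pow_right₀ (by linarith) hℓ
    rw [if_pos hk] at hδ
    rw [if_pos hk]
    have h1 : (1 : ℝ) ≤ |((aa b ξ k : ℝ) - aa b ξ (k - ℓ))| := by
      have := Int.one_le_abs hδ
      exact_mod_cast this
    have h2 := ph_step b ξ k
    have h3 := ph_step b ξ (k - ℓ)
    rw [ph_succ] at h2 h3
    have h4 : ph b ξ k = aa b ξ k + Int.fract (ξ * (b : ℝ) ^ k) := by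
      have := mul_left_cancel₀ hb0.ne' h2
      linarith
    have h5 : ph b ξ (k - ℓ) = aa b ξ (k - ℓ) + Int.fract (ξ * (b : ℝ) ^ (k - ℓ)) := by
      have := mul_left_cancel₀ hb0.ne' h3
      linarith
    have h6 := fract_step b ξ (k - ℓ) ℓ
    rw [Nat.sub_add_cancel hk] at h6
    have h7 := fract_bound hβ ⟨(b : ℤ) ^ ℓ, by push_cast; rfl⟩
      (Int.fract_nonneg (ξ * (b : ℝ) ^ (k - ℓ))) (Int.fract_lt_one (ξ * (b : ℝ) ^ (k - ℓ)))
    rw [← h6] at h7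
    have h8 : ph b ξ k - ph b ξ (k - ℓ) = ((aa b ξ k : ℝ) - aa b ξ (k - ℓ)) +
        (Int.fract (ξ * (b : ℝ) ^ k) - Int.fract (ξ * (b : ℝ) ^ (k - ℓ))) := by
      rw [h4, h5]
      ring
    rw [h8]
    have h9 : |((aa b ξ k : ℝ) - aa b ξ (k - ℓ))| ≤
        |((aa b ξ k : ℝ) - aa b ξ (k - ℓ)) +
        (Int.fract (ξ * (b : ℝ) ^ k) - Int.fract (ξ * (b : ℝ) ^ (k - ℓ)))| +
        |Int.fract (ξ * (b : ℝ) ^ k) - Int.fract (ξ * (b : ℝ) ^ (k - ℓ))| := by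
      have h10 := abs_sub (((aa b ξ k : ℝ) - aa b ξ (k - ℓ)) +
        (Int.fract (ξ * (b : ℝ) ^ k) - Int.fract (ξ * (b : ℝ) ^ (k - ℓ))))
        (Int.fract (ξ * (b : ℝ) ^ k) - Int.fract (ξ * (b : ℝ) ^ (k - ℓ)))
      rwa [add_sub_cancel_right] at h10
    linarith

theorem digit_changes {b : ℕ} (hb : 2 ≤ b) {ξ : ℝ} (hξ : Irrational ξ) {A B C : ℤ} (hA : A ≠ 0)
    (hrel : (A : ℝ) * ξ ^ 2 + B * ξ + C = 0) {ℓ : ℕ} (hℓ : 1 ≤ ℓ) :
    ∃ N0 : ℕ, ∀ N : ℕ, N0 ≤ N → (1 / 100) * (Real.log N / Real.log (Real.log N)) ^ 2 ≤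
      (((Icc 1 N).filter fun k => dig b ξ (k + ℓ) ≠ dig b ξ k).card : ℝ) := by
  obtain ⟨N0, hN0⟩ := (mkDat hb hξ hA hrel hℓ).main (ℓ + 1)
  refine ⟨N0, fun N hN => ?_⟩
  have h1 := hN0 N hN
  have h2 : ((range N).filter fun k => (mkDat hb hξ hA hrel hℓ).δ k ≠ 0).card ≤
      ((Icc 1 N).filter fun k => dig b ξ (k + ℓ) ≠ dig b ξ k).card + (ℓ + 1) := by
    have h3 : ((range N).filter fun k => (mkDat hb hξ hA hrel hℓ).δ k ≠ 0) ⊆
        (((Icc 1 N).filter fun k => dig b ξ (k + ℓ) ≠ dig b ξ k).image fun k => k + ℓ) ∪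
          range (ℓ + 1) := by
      intro k hk
      rw [mem_filter, mem_range] at hk
      rw [mem_union, mem_range]
      by_cases h4 : k < ℓ + 1
      · exact Or.inr h4
      · left
        rw [mem_image]
        refine ⟨k - ℓ, ?_, by omega⟩
        rw [mem_filter, mem_Icc]
        refine ⟨⟨by omega, by omega⟩, ?_⟩
        have h5 : k - ℓ + ℓ = (k - 1) + 1 := by omega
        have h6 : k - ℓ = (k - ℓ - 1) + 1 := by omega
        rw [h5, dig_eq hb, h6, dig_eq hb, ← h6, ← h5, Nat.sub_add_cancel (by omega)]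
        have h7 := hk.2
        simp only [mkDat] at h7
        rw [if_pos (by omega)] at h7
        exact fun h8 => h7 (by rw [h8]; ring)
    refine (card_le_card h3).trans ((card_union_le _ _).trans ?_)
    rw [card_range]
    exact Nat.add_le_add_right card_image_le _
  have h3 : ((((range N).filter fun k => (mkDat hb hξ hA hrel hℓ).δ k ≠ 0).card : ℕ) : ℝ) ≤
      ((((Icc 1 N).filter fun k => dig b ξ (k + ℓ) ≠ dig b ξ k).card : ℕ) : ℝ) +
        ((ℓ + 1 : ℕ) : ℝ) := by exact_mod_cast h2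
  linarith

end Pool.Agent.Helper80K9.DC
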