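import Pool.Agent.Helper80K9.DC.Seq

/-!
# The local lemma: two large gaps force a further nonzero term
-/

set_option autoImplicit false

open Finset

namespace Pool.Agent.Helper80K9.DC

namespace Dat

variable (S : Dat)

/-- the sum over an antidiagonal when all the nonzero products are near `(x, u)` or `(u, x)` -/
theorem sum_reindex {x u j : ℕ} (hj : x + j < u) (δ : ℕ → ℤ)
    (h : ∀ i k, i + k = u + x + j → δ i ≠ 0 → δ k ≠ 0 → (x ≤ i ∧ u ≤ k) ∨ (u ≤ i ∧ x ≤ k)) :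
    ∑ p ∈ antidiagonal (u + x + j), δ p.1 * δ p.2 =
      2 * ∑ p ∈ antidiagonal j, δ (x + p.1) * δ (u + p.2) := by
  classical
  set T1 : Finset (ℕ × ℕ) := (antidiagonal j).image fun p => (x + p.1, u + p.2) with hT1
  set T2 : Finset (ℕ × ℕ) := (antidiagonal j).image fun p => (u + p.2, x + p.1) with hT2
  have hd : Disjoint T1 T2 := by
    rw [Finset.disjoint_left]
    rintro ⟨a, a'⟩ h1 h2
    simp only [hT1, hT2, mem_image, HasAntidiagonal.mem_antidiagonal, Prod.mk.injEq] at h1 h2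
    obtain ⟨⟨p, p'⟩, hp, h3, h4⟩ := h1
    obtain ⟨⟨r, r'⟩, hr, h5, h6⟩ := h2
    simp only at hp h3 h4 hr h5 h6
    omega
  have hsub : T1 ∪ T2 ⊆ antidiagonal (u + x + j) := by
    rintro ⟨a, a'⟩ h1
    simp only [hT1, hT2, mem_union, mem_image, HasAntidiagonal.mem_antidiagonal, Prod.mk.injEq] at h1 ⊢
    rcases h1 with ⟨⟨p, p'⟩, hp, h3, h4⟩ | ⟨⟨p, p'⟩, hp, h3, h4⟩ <;>
    · simp only at hp h3 h4
      omega
  rw [← Finset.sum_subset hsub, Finset.sum_union hd, hT1, hT2, Finset.sum_image, Finset.sum_image,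
    two_mul]
  · congr 1
    refine sum_congr rfl fun p _ => ?_
    ring
  · rintro ⟨p, p'⟩ _ ⟨r, r'⟩ _ hpr
    simp only [Prod.mk.injEq] at hpr ⊢
    omega
  · rintro ⟨p, p'⟩ _ ⟨r, r'⟩ _ hpr
    simp only [Prod.mk.injEq] at hpr ⊢
    omega
  · rintro ⟨a, a'⟩ ha hn
    rw [HasAntidiagonal.mem_antidiagonal] at ha
    simp only at ha
    by_contra hne
    have hne1 : δ a ≠ 0 := fun h0 => hne (by simp [h0])
    have hne2 : δ a' ≠ 0 := fun h0 => hne (by simp [h0])
    apply hn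
    rcases h a a' ha hne1 hne2 with ⟨h1, h2⟩ | ⟨h1, h2⟩
    · refine mem_union_left _ (mem_image.2 ⟨(a - x, a' - u), ?_, ?_⟩)
      · rw [HasAntidiagonal.mem_antidiagonal]
        simp only
        omega
      · simp only [Prod.mk.injEq]
        omega
    · refine mem_union_right _ (mem_image.2 ⟨(a' - x, a - u), ?_, ?_⟩)
      · rw [HasAntidiagonal.mem_antidiagonal]
        simp only
        omega
      · simp only [Prod.mk.injEq]
        omega

theorem c_zero {m : ℕ} (hm : m ≠ 0) (h1 : S.δ m = 0)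
    (h2 : ∀ i k, i + k = m → S.δ i ≠ 0 → S.δ k ≠ 0 → False) : S.c m = 0 := by
  unfold c
  rw [h1, if_neg hm, Finset.sum_eq_zero]
  · ring
  · rintro ⟨a, a'⟩ ha
    rw [HasAntidiagonal.mem_antidiagonal] at ha
    by_contra hne
    exact h2 a a' ha (fun h0 => hne (by simp [h0])) fun h0 => hne (by simp [h0])

theorem local_lemma {x u w g L : ℕ} (hx0 : S.k0 ≤ x) (hwx : w < x) (hxu : x + L < u)
    (hδx : S.δ x ≠ 0) (hδu : S.δ u ≠ 0)
    (hgx : ∀ k, x ≤ k + w → k < x → S.δ k = 0)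
    (hgu : ∀ k, u ≤ k + g → k < u → S.δ k = 0)
    (hL1 : S.K * (((u + x + L : ℕ) : ℝ) + 2) < 2 ^ L)
    (hL2 : S.K * (((u + x + L : ℕ) : ℝ) + 2) <
      2 * |(S.A : ℝ)| * (2 ^ L * S.c0 ^ 2 - S.M ^ 2 * (L + 2))) :
    (∃ k, S.δ k ≠ 0 ∧ u + w < k + L ∧ k ≤ u + x + L) ∨
    (∃ i k, S.δ i ≠ 0 ∧ S.δ k ≠ 0 ∧ i < u ∧ k < u ∧ g ≤ i + L ∧ g ≤ k + L ∧
      u + x ≤ i + k + L ∧ i + k ≤ u + x + L) := by
  by_contra hcon
  rw [not_or] at hcon
  obtain ⟨hnA, hnB⟩ := hcon
  have hA : ∀ k, S.δ k ≠ 0 → u + w < k + L → k ≤ u + x + L → False :=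
    fun k h1 h2 h3 => hnA ⟨k, h1, h2, h3⟩
  have hpair : ∀ i k, S.δ i ≠ 0 → S.δ k ≠ 0 → u + x ≤ i + k + L → i + k ≤ u + x + L →
      (x ≤ i ∧ u ≤ k) ∨ (u ≤ i ∧ x ≤ k) := by
    intro i k hi hk h1 h2
    by_cases hiu : u ≤ i
    · right
      refine ⟨hiu, ?_⟩
      by_contra hkx
      have h3 : ¬ x ≤ k + w := fun h3 => hk (hgx k h3 (by omega))
      exact hA i hi (by omega) (by omega)
    · by_cases hku : u ≤ k
      · left
        refine ⟨?_, hku⟩
        by_contra hix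
        have h3 : ¬ x ≤ i + w := fun h3 => hi (hgx i h3 (by omega))
        exact hA k hk (by omega) (by omega)
      · exfalso
        have h3 : ¬ u ≤ i + g := fun h3 => hi (hgu i h3 (by omega))
        have h4 : ¬ u ≤ k + g := fun h3 => hk (hgu k h3 (by omega))
        exact hnB ⟨i, k, hi, hk, by omega, by omega, by omega, by omega, h1, h2⟩
  have hδ0 : ∀ m, u + x ≤ m + L → m ≤ u + x + L → S.δ m = 0 := by
    intro m h1 h2
    by_contra hne
    exact hA m hne (by omega) h2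
  have hc1 : ∀ m, u + x ≤ m + L → m < u + x → S.c m = 0 := by
    intro m h1 h2
    refine S.c_zero (by omega) (hδ0 m h1 (by omega)) fun i k hik hi hk => ?_
    rcases hpair i k hi hk (by omega) (by omega) with ⟨h3, h4⟩ | ⟨h3, h4⟩ <;> omega
  have hc2 : ∀ j, j ≤ L → S.c (u + x + j) =
      2 * S.A * ∑ p ∈ antidiagonal j, S.δ (x + p.1) * S.δ (u + p.2) := by
    intro j hj
    unfold c
    rw [hδ0 (u + x + j) (by omega) (by omega), if_neg (by omega),
      sum_reindex (by omega) S.δ fun i k hik hi hk => hpair i k hi hk (by omega) (by omega)]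
    ring
  have hK := S.K_nonneg
  have hq1 : S.q (u + x - 1) = 0 := by
    have h1 : u + x - 1 = (u + x - 1 - L) + L := by omega
    rw [h1]
    refine S.q_zero (fun j h2 h3 => hc1 j (by omega) (by omega)) ?_
    rw [← h1]
    refine lt_of_le_of_lt (mul_le_mul_of_nonneg_left ?_ hK) hL1
    have : ((u + x - 1 : ℕ) : ℝ) ≤ ((u + x + L : ℕ) : ℝ) := by
      exact_mod_cast (by omega : u + x - 1 ≤ u + x + L)
    linarith
  have hq2 : ∀ j, j ≤ L → S.q (u + x + j) = 2 * S.A * S.H x u j := by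
    intro j
    induction j with
    | zero =>
      intro _
      have h1 : u + x + 0 = (u + x - 1) + 1 := by omega
      rw [h1, q, hq1, ← h1, hc2 0 (Nat.zero_le _)]
      simp [H]
    | succ j ih =>
      intro hj
      have h1 := ih (by omega)
      have h2 : u + x + (j + 1) = (u + x + j) + 1 := by omega
      rw [h2, q, h1, ← h2, hc2 (j + 1) hj]
      simp only [H]
      ring
  have h1 := hq2 L le_rfl
  have h2 := S.q_bound (u + x + L)
  have h3 := S.H_lower (S.hlow x hx0 hδx) (S.hlow u (by omega) hδu) L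
  rw [h1] at h2
  push_cast at h2 hL2
  rw [abs_mul, abs_mul, abs_two] at h2
  have h4 : 2 * |(S.A : ℝ)| * (2 ^ L * S.c0 ^ 2 - S.M ^ 2 * (L + 2)) ≤
      2 * |(S.A : ℝ)| * |(S.H x u L : ℝ)| :=
    mul_le_mul_of_nonneg_left h3 (by positivity)
  linarith

end Dat

end Pool.Agent.Helper80K9.DC
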