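import Mathlib

/-!
# Expansions of quadratic irrationals with few nonzero terms: the algebraic part
-/

set_option autoImplicit false

open Finset

namespace Pool.Agent.Helper80K9.DC

/-- An expansion `τ 0 = ∑ δ k b^(-k)` of a real quadratic irrational with bounded integers `δ k`,
given with its tails `τ n = ∑_{k ≥ n} δ k b^(n-k)`, which are not small at the nonzero terms. -/
structure Dat where
  b : ℕ
  hb : 2 ≤ b
  δ : ℕ → ℤ
  τ : ℕ → ℝ
  hτ : ∀ n, τ (n + 1) = b * (τ n - δ n)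
  M : ℝ
  hM1 : 1 ≤ M
  hM : ∀ n, |τ n| ≤ M
  hδ : ∀ n, |(δ n : ℝ)| ≤ M
  A : ℤ
  B : ℤ
  C : ℤ
  hA : A ≠ 0
  hirr : Irrational (τ 0)
  hrel : (A : ℝ) * τ 0 ^ 2 + B * τ 0 + C = 0
  c0 : ℝ
  hc0 : 0 < c0
  k0 : ℕ
  hlow : ∀ k, k0 ≤ k → δ k ≠ 0 → c0 ≤ |τ k|

namespace Dat

variable (S : Dat)

/-- the coefficients of `A D^2 + B D + C` -/
def c (m : ℕ) : ℤ :=
  S.A * ∑ p ∈ antidiagonal m, S.δ p.1 * S.δ p.2 + S.B * S.δ m + if m = 0 then S.C else 0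

/-- the coefficients of `(A D^2 + B D + C) / (1 - b X)` -/
def q : ℕ → ℤ
  | 0 => S.c 0
  | m + 1 => S.b * q m + S.c (m + 1)

theorem hbR : (2 : ℝ) ≤ S.b := by exact_mod_cast S.hb

theorem q_eq (m : ℕ) : (S.b : ℝ) * S.q m = -((S.A * S.τ 0 + S.B) * S.τ (m + 1) +
    S.A * ∑ i ∈ range (m + 1), (S.δ i : ℝ) * S.τ (m + 1 - i)) := by
  induction m with
  | zero =>
    have h1 := S.hrel
    have h2 : S.c 0 = S.A * (S.δ 0 * S.δ 0) + S.B * S.δ 0 + S.C := by simp [c]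
    simp only [q, h2, zero_add, range_one, sum_singleton, Nat.sub_zero]
    rw [S.hτ 0]
    push_cast
    linear_combination (S.b : ℝ) * h1
  | succ m ih =>
    have h1 : ∑ i ∈ range (m + 1 + 1), (S.δ i : ℝ) * S.τ (m + 1 + 1 - i) =
        S.b * (∑ i ∈ range (m + 1), (S.δ i : ℝ) * S.τ (m + 1 - i) + S.δ (m + 1) * S.τ 0 -
          ∑ i ∈ range (m + 1 + 1), (S.δ i : ℝ) * S.δ (m + 1 - i)) := by
      have h2 : ∑ i ∈ range (m + 1), (S.δ i : ℝ) * S.τ (m + 1 - i) + S.δ (m + 1) * S.τ 0 =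
          ∑ i ∈ range (m + 1 + 1), (S.δ i : ℝ) * S.τ (m + 1 - i) := by
        rw [sum_range_succ _ (m + 1), Nat.sub_self]
      rw [h2, ← sum_sub_distrib, mul_sum]
      refine sum_congr rfl fun i hi => ?_
      have hi' : i ≤ m + 1 := by have := mem_range.1 hi; omega
      have h3 : m + 1 + 1 - i = (m + 1 - i) + 1 := by omega
      rw [h3, S.hτ]
      ring
    have h4 : (S.c (m + 1) : ℝ) = S.A * ∑ i ∈ range (m + 1 + 1), (S.δ i : ℝ) * S.δ (m + 1 - i) +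
        S.B * S.δ (m + 1) := by
      unfold c
      rw [Nat.sum_antidiagonal_eq_sum_range_succ_mk]
      push_cast
      simp
    simp only [q]
    push_cast
    rw [h1, h4, S.hτ (m + 1)]
    linear_combination (S.b : ℝ) * ih

/-- the constant in the bound for `q` -/
noncomputable def K : ℝ := (|(S.A : ℝ)| + |(S.B : ℝ)|) * S.M ^ 2

theorem K_nonneg : 0 ≤ S.K := by
  unfold K
  positivity

theorem q_bound (m : ℕ) : |(S.q m : ℝ)| ≤ S.K * (m + 2) := by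
  have hM0 : 0 < S.M := lt_of_lt_of_le one_pos S.hM1
  have h1 := S.q_eq m
  have h2 : |∑ i ∈ range (m + 1), (S.δ i : ℝ) * S.τ (m + 1 - i)| ≤ (m + 1) * (S.M * S.M) := by
    refine (abs_sum_le_sum_abs _ _).trans ?_
    have : ∀ i ∈ range (m + 1), |(S.δ i : ℝ) * S.τ (m + 1 - i)| ≤ S.M * S.M := by
      intro i _
      rw [abs_mul]
      exact mul_le_mul (S.hδ i) (S.hM _) (abs_nonneg _) hM0.le
    refine (sum_le_sum this).trans ?_
    rw [sum_const, card_range, nsmul_eq_mul]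
    push_cast
    exact le_rfl
  have h3 : |(S.b : ℝ) * S.q m| ≤ (|(S.A : ℝ)| * S.M + |(S.B : ℝ)|) * S.M +
      |(S.A : ℝ)| * ((m + 1) * (S.M * S.M)) := by
    rw [h1, abs_neg]
    refine (abs_add_le _ _).trans (add_le_add ?_ ?_)
    · rw [abs_mul]
      refine mul_le_mul ?_ (S.hM _) (abs_nonneg _) (by positivity)
      refine (abs_add_le _ _).trans (add_le_add ?_ le_rfl)
      rw [abs_mul]
      exact mul_le_mul_of_nonneg_left (S.hM 0) (abs_nonneg _)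
    · rw [abs_mul]
      exact mul_le_mul_of_nonneg_left h2 (abs_nonneg _)
  rw [abs_mul, abs_of_nonneg (by positivity : (0 : ℝ) ≤ S.b)] at h3
  have h4 := S.hbR
  have h5 : (0 : ℝ) ≤ |(S.q m : ℝ)| := abs_nonneg _
  have h6 : |(S.q m : ℝ)| ≤ S.b * |(S.q m : ℝ)| := by nlinarith
  refine (h6.trans h3).trans ?_
  unfold K
  have h7 : S.M ≤ S.M ^ 2 := by nlinarith [S.hM1]
  have h8 : (0 : ℝ) ≤ m := Nat.cast_nonneg m
  have h9 : (0 : ℝ) ≤ |(S.A : ℝ)| := abs_nonneg _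
  have h10 : (0 : ℝ) ≤ |(S.B : ℝ)| := abs_nonneg _
  have h11 : |(S.B : ℝ)| * S.M ≤ |(S.B : ℝ)| * S.M ^ 2 := mul_le_mul_of_nonneg_left h7 h10
  have h12 : 0 ≤ |(S.B : ℝ)| * S.M ^ 2 * (m + 1) := by positivity
  nlinarith

theorem q_step {m n : ℕ} (h : ∀ j, m < j → j ≤ m + n → S.c j = 0) :
    S.q (m + n) = (S.b : ℤ) ^ n * S.q m := by
  induction n with
  | zero => simp
  | succ n ih =>
    have h1 := ih fun j h1 h2 => h j h1 (by omega)
    rw [← Nat.add_assoc]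
    simp only [q]
    rw [h1, h (m + n + 1) (by omega) (by omega)]
    ring

theorem q_zero {m L : ℕ} (h : ∀ j, m < j → j ≤ m + L → S.c j = 0)
    (hL : S.K * (((m + L : ℕ) : ℝ) + 2) < 2 ^ L) : S.q (m + L) = 0 := by
  have h1 := S.q_step h
  have h2 := S.q_bound (m + L)
  by_contra hne
  have hq : S.q m ≠ 0 := by
    intro h0
    rw [h0, mul_zero] at h1
    exact hne h1
  have h3 : (1 : ℝ) ≤ |(S.q m : ℝ)| := by
    have : 1 ≤ |S.q m| := Int.one_le_abs hq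
    exact_mod_cast this
  have h4 : |(S.q (m + L) : ℝ)| = (S.b : ℝ) ^ L * |(S.q m : ℝ)| := by
    rw [h1]
    push_cast
    rw [abs_mul, abs_of_nonneg (by positivity : (0 : ℝ) ≤ (S.b : ℝ) ^ L)]
  have h5 : (2 : ℝ) ^ L ≤ (S.b : ℝ) ^ L := pow_le_pow_left₀ (by norm_num) S.hbR L
  have h6 : (2 : ℝ) ^ L ≤ |(S.q (m + L) : ℝ)| := by
    rw [h4]
    nlinarith [pow_pos (by norm_num : (0 : ℝ) < 2) L]
  linarith

/-- partial sums of the product of two tails -/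
def H (x u : ℕ) : ℕ → ℤ
  | 0 => S.δ x * S.δ u
  | n + 1 => S.b * H x u n + ∑ p ∈ antidiagonal (n + 1), S.δ (x + p.1) * S.δ (u + p.2)

theorem H_eq (x u n : ℕ) : (S.b : ℝ) * S.H x u n = (S.b : ℝ) ^ (n + 1) * (S.τ x * S.τ u) -
    (S.τ u * S.τ (x + n + 1) +
      ∑ i ∈ range (n + 1), (S.δ (x + i) : ℝ) * S.τ (u + (n + 1 - i))) := by
  induction n with
  | zero =>
    simp only [H, zero_add, range_one, sum_singleton, Nat.sub_zero, Nat.add_zero, pow_one]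
    rw [S.hτ x, S.hτ u]
    push_cast
    ring
  | succ n ih =>
    have h1 : ∑ i ∈ range (n + 1 + 1), (S.δ (x + i) : ℝ) * S.τ (u + (n + 1 + 1 - i)) =
        S.b * (∑ i ∈ range (n + 1), (S.δ (x + i) : ℝ) * S.τ (u + (n + 1 - i)) +
          S.δ (x + (n + 1)) * S.τ u -
          ∑ i ∈ range (n + 1 + 1), (S.δ (x + i) : ℝ) * S.δ (u + (n + 1 - i))) := by
      have h2 : ∑ i ∈ range (n + 1), (S.δ (x + i) : ℝ) * S.τ (u + (n + 1 - i)) +
          S.δ (x + (n + 1)) * S.τ u =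
          ∑ i ∈ range (n + 1 + 1), (S.δ (x + i) : ℝ) * S.τ (u + (n + 1 - i)) := by
        rw [sum_range_succ _ (n + 1)]
        simp
      rw [h2, ← sum_sub_distrib, mul_sum]
      refine sum_congr rfl fun i hi => ?_
      have hi' : i ≤ n + 1 := by have := mem_range.1 hi; omega
      have h3 : u + (n + 1 + 1 - i) = (u + (n + 1 - i)) + 1 := by omega
      rw [h3, S.hτ]
      ring
    simp only [H]
    rw [Nat.sum_antidiagonal_eq_sum_range_succ_mk]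
    push_cast
    rw [h1]
    have h5 : x + (n + 1) + 1 = (x + n + 1) + 1 := by omega
    rw [h5, S.hτ (x + n + 1)]
    have h6 : x + (n + 1) = x + n + 1 := by omega
    rw [h6]
    linear_combination (S.b : ℝ) * ih

theorem H_lower {x u : ℕ} (hx : S.c0 ≤ |S.τ x|) (hu : S.c0 ≤ |S.τ u|) (n : ℕ) :
    (2 : ℝ) ^ n * S.c0 ^ 2 - S.M ^ 2 * (n + 2) ≤ |(S.H x u n : ℝ)| := by
  have hM0 : 0 < S.M := lt_of_lt_of_le one_pos S.hM1
  have hb := S.hbR
  have hb0 : (0 : ℝ) < S.b := by linarith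
  have h1 := S.H_eq x u n
  have h2 : |∑ i ∈ range (n + 1), (S.δ (x + i) : ℝ) * S.τ (u + (n + 1 - i))| ≤
      (n + 1) * (S.M * S.M) := by
    refine (abs_sum_le_sum_abs _ _).trans ?_
    have : ∀ i ∈ range (n + 1), |(S.δ (x + i) : ℝ) * S.τ (u + (n + 1 - i))| ≤ S.M * S.M := by
      intro i _
      rw [abs_mul]
      exact mul_le_mul (S.hδ _) (S.hM _) (abs_nonneg _) hM0.le
    refine (sum_le_sum this).trans ?_
    rw [sum_const, card_range, nsmul_eq_mul]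
    push_cast
    exact le_rfl
  have h3 : |S.τ u * S.τ (x + n + 1) +
      ∑ i ∈ range (n + 1), (S.δ (x + i) : ℝ) * S.τ (u + (n + 1 - i))| ≤ S.M ^ 2 * (n + 2) := by
    refine (abs_add_le _ _).trans ?_
    have h4 : |S.τ u * S.τ (x + n + 1)| ≤ S.M * S.M := by
      rw [abs_mul]
      exact mul_le_mul (S.hM _) (S.hM _) (abs_nonneg _) hM0.le
    nlinarith
  have h5 : (S.b : ℝ) ^ (n + 1) * S.c0 ^ 2 ≤ |(S.b : ℝ) ^ (n + 1) * (S.τ x * S.τ u)| := by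
    rw [abs_mul, abs_of_nonneg (by positivity : (0 : ℝ) ≤ (S.b : ℝ) ^ (n + 1)), abs_mul]
    refine mul_le_mul_of_nonneg_left ?_ (by positivity)
    rw [sq]
    exact mul_le_mul hx hu S.hc0.le (abs_nonneg _)
  have h6 : |(S.b : ℝ) ^ (n + 1) * (S.τ x * S.τ u)| ≤ |(S.b : ℝ) * S.H x u n| +
      S.M ^ 2 * (n + 2) := by
    have h7 : (S.b : ℝ) ^ (n + 1) * (S.τ x * S.τ u) = (S.b : ℝ) * S.H x u n +
        (S.τ u * S.τ (x + n + 1) +
          ∑ i ∈ range (n + 1), (S.δ (x + i) : ℝ) * S.τ (u + (n + 1 - i))) := by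
      rw [h1]; ring
    rw [h7]
    exact (abs_add_le _ _).trans (add_le_add le_rfl h3)
  rw [abs_mul (S.b : ℝ), abs_of_pos hb0] at h6
  have h8 : (S.b : ℝ) * ((2 : ℝ) ^ n * S.c0 ^ 2) ≤ (S.b : ℝ) ^ (n + 1) * S.c0 ^ 2 := by
    have h9 : (2 : ℝ) ^ n ≤ (S.b : ℝ) ^ n := pow_le_pow_left₀ (by norm_num) hb n
    have h10 : 0 ≤ (S.b : ℝ) * S.c0 ^ 2 := by positivity
    calc (S.b : ℝ) * ((2 : ℝ) ^ n * S.c0 ^ 2) = 2 ^ n * (S.b * S.c0 ^ 2) := by ring
      _ ≤ (S.b : ℝ) ^ n * (S.b * S.c0 ^ 2) := mul_le_mul_of_nonneg_right h9 h10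
      _ = (S.b : ℝ) ^ (n + 1) * S.c0 ^ 2 := by ring
  have h11 : (S.b : ℝ) * ((2 : ℝ) ^ n * S.c0 ^ 2) ≤ S.b * |(S.H x u n : ℝ)| +
      S.b * (S.M ^ 2 * (n + 2)) := by
    have h12 : S.M ^ 2 * ((n : ℝ) + 2) ≤ S.b * (S.M ^ 2 * (n + 2)) := by
      have : 0 ≤ S.M ^ 2 * ((n : ℝ) + 2) := by positivity
      nlinarith
    linarith
  have h13 : (2 : ℝ) ^ n * S.c0 ^ 2 ≤ |(S.H x u n : ℝ)| + S.M ^ 2 * (n + 2) := by
    by_contra hcon
    push Not at hcon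
    have := mul_lt_mul_of_pos_left hcon hb0
    linarith
  linarith

end Dat

end Pool.Agent.Helper80K9.DC
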